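import Pool.Agent.K3h34.BF.Stm

/-! # Symmetric polynomials are dense on the simplex -/

set_option autoImplicit false
set_option linter.style.haveILetI false

namespace Pool.Agent.K3h85.BF

open MvPolynomial MeasureTheory
open Pool.Agent.K3h15.DM (Rx Sym)
open Pool.Agent.K3h34.BF (Usim ev StmDens)

/-- the closed simplex -/
def Ks (n : ℕ) : Set (Fin n → ℝ) := {x | Monotone x ∧ ∀ i, x i ∈ Set.Icc (0 : ℝ) 1}

theorem isCompact_Ks (n : ℕ) : IsCompact (Ks n) := by
  have h1 : IsCompact (Set.univ.pi fun _ : Fin n => Set.Icc (0 : ℝ) 1) :=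
    isCompact_univ_pi fun _ => isCompact_Icc
  refine h1.of_isClosed_subset ?_ ?_
  · have h2 : Ks n = (⋂ i : Fin n, ⋂ j : Fin n, ⋂ _ : i ≤ j, {x : Fin n → ℝ | x i ≤ x j}) ∩
        ⋂ i : Fin n, {x : Fin n → ℝ | x i ∈ Set.Icc (0 : ℝ) 1} := by
      ext x
      simp only [Ks, Set.mem_ofPred_eq, Set.mem_inter_iff, Set.mem_iInter]
      exact Iff.rfl
    rw [h2]
    refine IsClosed.inter ?_ ?_
    · exact isClosed_iInter fun i => isClosed_iInter fun j => isClosed_iInter fun _ =>
        isClosed_le (continuous_apply i) (continuous_apply j)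
    · exact isClosed_iInter fun i => isClosed_Icc.preimage (continuous_apply i)
  · intro x hx i _
    exact hx.2 i

theorem Usim_sub_Ks (n : ℕ) : Usim n ⊆ Ks n := by
  rintro x ⟨h1, h2⟩
  refine ⟨fun i j hij => ?_, fun i => ⟨(h2 i).1.le, (h2 i).2.le⟩⟩
  rcases hij.eq_or_lt with h | h
  · rw [h]
  · exact (h1 i j h).le

theorem isOpen_Us (n : ℕ) : IsOpen (Usim n) := by
  have h2 : Usim n = (⋂ i : Fin n, ⋂ j : Fin n, ⋂ _ : i < j, {x : Fin n → ℝ | x i < x j}) ∩
      ⋂ i : Fin n, {x : Fin n → ℝ | x i ∈ Set.Ioo (0 : ℝ) 1} := by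
    ext x
    simp only [Usim, Set.mem_ofPred_eq, Set.mem_inter_iff, Set.mem_iInter, Set.mem_Ioo]
  rw [h2]
  refine IsOpen.inter ?_ ?_
  · exact isOpen_iInter_of_finite fun i => isOpen_iInter_of_finite fun j =>
      isOpen_iInter_of_finite fun _ => isOpen_lt (continuous_apply i) (continuous_apply j)
  · exact isOpen_iInter_of_finite fun i => isOpen_Ioo.preimage (continuous_apply i)

theorem nonempty_Us (n : ℕ) : (Usim n).Nonempty := by
  refine ⟨fun i => ((i : ℕ) + 1 : ℝ) / (n + 1), fun i j hij => ?_, fun i => ⟨by positivity, ?_⟩⟩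
  · have h1 : ((i : ℕ) : ℝ) < ((j : ℕ) : ℝ) := by exact_mod_cast hij
    exact div_lt_div_of_pos_right (by linarith) (by positivity)
  · have h1 : ((i : ℕ) : ℝ) < (n : ℝ) := by exact_mod_cast i.2
    rw [div_lt_one (by positivity)]
    linarith

theorem ev_continuous {n : ℕ} (p : Rx n) : Continuous fun x : Fin n → ℝ => ev x p := by
  have h1 : Continuous fun y : Fin n → ℂ => eval y p := MvPolynomial.continuous_eval p
  exact h1.comp (continuous_pi fun i => Complex.continuous_ofReal.comp (continuous_apply i))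

/-- the algebra of the real functions given by symmetric polynomials -/
noncomputable def As (n : ℕ) : Subalgebra ℝ C(Ks n, ℝ) where
  carrier := {f | ∃ p : Rx n, Sym p ∧ ∀ x : Ks n, ev (x : Fin n → ℝ) p = f x}
  mul_mem' := by
    rintro f g ⟨p, hp, hpf⟩ ⟨q, hq, hqg⟩
    refine ⟨p * q, fun σ => by rw [map_mul, hp σ, hq σ], fun x => ?_⟩
    rw [ev, map_mul, ← ev, ← ev, hpf, hqg]
    simp
  add_mem' := by
    rintro f g ⟨p, hp, hpf⟩ ⟨q, hq, hqg⟩
    refine ⟨p + q, fun σ => by rw [map_add, hp σ, hq σ], fun x => ?_⟩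
    rw [ev, map_add, ← ev, ← ev, hpf, hqg]
    simp
  algebraMap_mem' := by
    intro r
    refine ⟨C (r : ℂ), fun σ => by rw [rename_C], fun x => ?_⟩
    rw [ev, eval_C]
    simp

theorem As_sep (n : ℕ) : (As n).SeparatesPoints := by
  intro x y hxy
  by_contra hcon
  push Not at hcon
  apply hxy
  -- the polynomials agree
  have h1 : ∏ i, (Polynomial.X - Polynomial.C ((x : Fin n → ℝ) i)) =
      ∏ i, (Polynomial.X - Polynomial.C ((y : Fin n → ℝ) i)) := by
    refine Polynomial.funext fun t => ?_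
    have hc : Continuous fun z : Ks n => ∏ i, (t - (z : Fin n → ℝ) i) :=
      continuous_finsetProd _ fun i _ =>
        continuous_const.sub ((continuous_apply i).comp continuous_subtype_val)
    have h2 := hcon (fun z : Ks n => ∏ i, (t - (z : Fin n → ℝ) i))
      ⟨⟨_, hc⟩, ⟨∏ i, (C (t : ℂ) - X i), fun σ => ?_, fun z => ?_⟩, rfl⟩
    · simpa [Polynomial.eval_prod] using h2
    · rw [map_prod]
      simp only [map_sub, rename_C, rename_X]
      exact Equiv.prod_comp σ (fun i => (C (t : ℂ) - X i : Rx n))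
    · rw [ev, map_prod]
      simp
  have h2 := congrArg Polynomial.roots h1
  rw [Polynomial.roots_prod _ _ (Polynomial.monic_prod_of_monic _ _ fun _ _ =>
      Polynomial.monic_X_sub_C _).ne_zero,
    Polynomial.roots_prod _ _ (Polynomial.monic_prod_of_monic _ _ fun _ _ =>
      Polynomial.monic_X_sub_C _).ne_zero] at h2
  simp only [Polynomial.roots_X_sub_C, Multiset.bind_singleton] at h2
  have h3 : (List.ofFn (x : Fin n → ℝ)).Perm (List.ofFn (y : Fin n → ℝ)) := by
    rw [← Multiset.coe_eq_coe, List.ofFn_eq_map, List.ofFn_eq_map, ← Multiset.map_coe,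
      ← Multiset.map_coe]
    exact h2
  have h4 := h3.eq_of_sortedLE x.2.1.sortedLE_ofFn y.2.1.sortedLE_ofFn
  exact Subtype.ext (List.ofFn_injective h4)

theorem t_Dens : StmDens := by
  intro n W C₀ hW hb hne
  by_contra hcon
  push Not at hcon
  have hUm : MeasurableSet (Usim n) := (isOpen_Us n).measurableSet
  have hfin : volume (Usim n) < ⊤ :=
    lt_of_le_of_lt (measure_mono (Usim_sub_Ks n)) (isCompact_Ks n).measure_lt_top
  have hC0 : 0 ≤ C₀ := by
    obtain ⟨x, hx⟩ := nonempty_Us n
    exact (norm_nonneg _).trans (hb x hx)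
  have hWi : IntegrableOn W (Usim n) := by
    refine IntegrableOn.of_bound hfin (hW.aestronglyMeasurable hUm) C₀ ?_
    exact (ae_restrict_iff' hUm).mpr (Filter.Eventually.of_forall fun x hx => hb x hx)
  have hkey : ∀ᵐ x, x ∈ Usim n → W x = 0 := by
    refine (isOpen_Us n).ae_eq_zero_of_integral_contDiff_smul_eq_zero
      hWi.locallyIntegrableOn fun g hg _ hsupp => ?_
    have h1 : ∫ x, g x • W x = ∫ x in Usim n, g x • W x := by
      symm
      refine setIntegral_eq_integral_of_forall_compl_eq_zero fun x hx => ?_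
      rw [image_eq_zero_of_notMem_tsupport fun h => hx (hsupp h), zero_smul]
    rw [h1]
    rw [← norm_eq_zero]
    refine le_antisymm (le_of_forall_pos_le_add fun ε hε => ?_) (norm_nonneg _)
    rw [zero_add]
    set δ : ℝ := ε / (C₀ * volume.real (Usim n) + 1) with hδ
    have hv0 : 0 ≤ C₀ * volume.real (Usim n) := mul_nonneg hC0 measureReal_nonneg
    have hδ0 : 0 < δ := div_pos hε (by linarith)
    haveI : CompactSpace (Ks n) := isCompact_iff_compactSpace.mp (isCompact_Ks n)
    obtain ⟨⟨f, p, hp, hpf⟩, hf⟩ :=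
      ContinuousMap.exists_mem_subalgebra_near_continuous_of_separatesPoints (As n) (As_sep n)
        (fun x : Ks n => g x) (hg.continuous.comp continuous_subtype_val) δ hδ0
    have h2 : ∫ x in Usim n, g x • W x = ∫ x in Usim n, ((g x : ℂ) - ev x p) * W x := by
      have h3 := hcon p hp
      have h4 : IntegrableOn (fun x => W x * ev x p) (Usim n) :=
        hWi.mul_continuousOn_of_subset (ev_continuous p).continuousOn hUm (isCompact_Ks n)
          (Usim_sub_Ks n)
      have h5 : IntegrableOn (fun x => (g x : ℂ) * W x) (Usim n) :=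
        hWi.continuousOn_mul_of_subset
          (Complex.continuous_ofReal.comp hg.continuous).continuousOn (isCompact_Ks n) hUm
          (Usim_sub_Ks n)
      have h6 : ∀ x, ((g x : ℂ) - ev x p) * W x = (g x : ℂ) * W x - W x * ev x p := fun x => by
        ring
      simp only [h6]
      rw [integral_sub h5 h4, h3, sub_zero]
      rfl
    rw [h2]
    have h7 := norm_setIntegral_le_of_norm_le_const (μ := volume) (s := Usim n)
      (f := fun x => ((g x : ℂ) - ev x p) * W x) (C := δ * C₀) hfin (fun x hx => by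
        rw [norm_mul]
        refine mul_le_mul ?_ (hb x hx) (norm_nonneg _) hδ0.le
        have h8 := hf ⟨x, Usim_sub_Ks n hx⟩
        have h9 := hpf ⟨x, Usim_sub_Ks n hx⟩
        simp only at h9 h8
        rw [h9, ← Complex.ofReal_sub, Complex.norm_real, norm_sub_rev]
        exact h8.le)
    refine h7.trans ?_
    rw [hδ]
    rw [mul_assoc, div_mul_eq_mul_div, div_le_iff₀ (by linarith)]
    nlinarith
  have h10 : volume (Usim n) = 0 := by
    have h11 : ∀ᵐ x, x ∉ Usim n := hkey.mono fun x hx hxU => hne x hxU (hx hxU)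
    have h12 := ae_iff.mp h11
    simpa using h12
  exact ((isOpen_Us n).measure_pos volume (nonempty_Us n)).ne' h10

end Pool.Agent.K3h85.BF
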