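import Pool.Agent.K3h85.BF.Hom
import Pool.Agent.K3h15.DM.Disc

/-! # Existence and uniqueness of the discriminant of forms -/

set_option autoImplicit false
set_option linter.style.haveILetI false

namespace Pool.Agent.K3h85.BF

open MvPolynomial
open Pool.Agent.K3h15.DM (Rx hz coeffs_surj)
open Pool.Agent.K3h15.BF (dh IsDiscB)
open Pool.Agent.K3h34.BF (Rc hv)

theorem natDegree_pr {n : ℕ} (x : Fin n → ℂ) :
    (∏ i, (Polynomial.X - Polynomial.C (x i))).natDegree = n := by
  rw [Polynomial.natDegree_prod_of_monic _ _ fun _ _ => Polynomial.monic_X_sub_C _]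
  simp only [Polynomial.natDegree_X_sub_C, Finset.sum_const, Finset.card_univ,
    Fintype.card_fin, smul_eq_mul, mul_one]

theorem monic_pr {n : ℕ} (x : Fin n → ℂ) :
    (∏ i, (Polynomial.X - Polynomial.C (x i))).Monic :=
  Polynomial.monic_prod_of_monic _ _ fun _ _ => Polynomial.monic_X_sub_C _

theorem coeff_pr {n : ℕ} (x : Fin n → ℂ) :
    (∏ i, (Polynomial.X - Polynomial.C (x i))).coeff n = 1 := by
  have hm := monic_pr x
  rw [Polynomial.Monic, Polynomial.leadingCoeff, natDegree_pr] at hm
  exact hm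

/-- all coefficient vectors with nonzero last entry come from roots -/
theorem surj_roots {n : ℕ} (y : Fin (n + 1) → ℂ) (hy : y (Fin.last n) ≠ 0) :
    ∃ x : Fin n → ℂ, y = fun j : Fin (n + 1) => (Polynomial.C (y (Fin.last n)) *
      ∏ i, (Polynomial.X - Polynomial.C (x i))).coeff j := by
  obtain ⟨x, hx⟩ := coeffs_surj n (fun j => (y (Fin.last n))⁻¹ * y j.castSucc)
  refine ⟨x, funext fun j => ?_⟩
  rw [Polynomial.coeff_C_mul]
  induction j using Fin.lastCases with
  | last => rw [Fin.val_last, coeff_pr, mul_one]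
  | cast j =>
    have h := congrFun hx j
    rw [Fin.val_castSucc, h, mul_inv_cancel_left₀ hy]

/-- the generic polynomial -/
noncomputable def Hg (n : ℕ) : Polynomial (Rc n) :=
  ∑ j : Fin (n + 1), Polynomial.C (X j) * Polynomial.X ^ (j : ℕ)

theorem Hg_coeff (n : ℕ) (j : Fin (n + 1)) : (Hg n).coeff j = X j := by
  rw [Hg, Polynomial.finsetSum_coeff, Finset.sum_eq_single j]
  · simp
  · intro k _ hk
    rw [Polynomial.coeff_C_mul, Polynomial.coeff_X_pow, if_neg, mul_zero]
    exact fun h => hk (Fin.ext h.symm)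
  · intro h
    exact absurd (Finset.mem_univ j) h

theorem Hg_natDegree (n : ℕ) : (Hg n).natDegree = n := by
  refine le_antisymm ?_ ?_
  · rw [Hg]
    refine Polynomial.natDegree_sum_le_of_forall_le _ _ fun j _ => ?_
    refine (Polynomial.natDegree_C_mul_X_pow_le _ _).trans ?_
    have := j.2
    omega
  · refine Polynomial.le_natDegree_of_ne_zero ?_
    have h := Hg_coeff n (Fin.last n)
    rw [Fin.val_last] at h
    rw [h]
    exact X_ne_zero _

theorem Hg_map {n : ℕ} (t : ℂ) (x : Fin n → ℂ) : (Hg n).map (eval (fun j : Fin (n + 1) =>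
    (Polynomial.C t * ∏ i, (Polynomial.X - Polynomial.C (x i))).coeff j)) =
    Polynomial.C t * ∏ i, (Polynomial.X - Polynomial.C (x i)) := by
  have h1 : (Polynomial.C t * ∏ i, (Polynomial.X - Polynomial.C (x i))).natDegree < n + 1 := by
    refine lt_of_le_of_lt (Polynomial.natDegree_C_mul_le _ _) ?_
    rw [natDegree_pr]
    exact Nat.lt_succ_self n
  conv_rhs => rw [Polynomial.as_sum_range_C_mul_X_pow' _ h1]
  rw [Hg, Polynomial.map_sum, Finset.sum_range]
  refine Finset.sum_congr rfl fun j _ => ?_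
  simp

/-- the resultant of the generic polynomial at `t ∏ (T - x_i)` -/
theorem res_val {n : ℕ} {t : ℂ} (ht : t ≠ 0) (x : Fin n → ℂ) :
    eval (fun j : Fin (n + 1) =>
      (Polynomial.C t * ∏ i, (Polynomial.X - Polynomial.C (x i))).coeff j)
      (Polynomial.resultant (Hg n) (Hg n).derivative n (n - 1)) =
    t ^ (n - 1) * ∏ i, (t * ∏ j ∈ {i}ᶜ, (x i - x j)) := by
  set y : Fin (n + 1) → ℂ := fun j : Fin (n + 1) =>
      (Polynomial.C t * ∏ i, (Polynomial.X - Polynomial.C (x i))).coeff j with hy
  set h : Polynomial ℂ := Polynomial.C t * ∏ i, (Polynomial.X - Polynomial.C (x i)) with hh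
  have h1 := Polynomial.resultant_map_map (Hg n) (Hg n).derivative n (n - 1) (eval y)
  rw [← h1, ← Polynomial.derivative_map, hy, Hg_map, ← hh]
  have hd : h.natDegree = n := by
    rw [hh, Polynomial.natDegree_C_mul ht, natDegree_pr]
  have hl : h.leadingCoeff = t := by
    rw [hh, Polynomial.leadingCoeff_mul, Polynomial.leadingCoeff_C, (monic_pr x).leadingCoeff,
      mul_one]
  have h2 := Polynomial.resultant_eq_prod_eval h h.derivative (n - 1)
    (by
      have := Polynomial.natDegree_derivative_le h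
      rw [hd] at this
      exact this) (IsAlgClosed.splits h)
  rw [hd, hl] at h2
  rw [h2]
  have h3 : h.roots = Finset.univ.val.map x := by
    rw [hh, Polynomial.roots_C_mul _ ht, Polynomial.roots_prod]
    · simp only [Polynomial.roots_X_sub_C]
      exact Multiset.bind_singleton _ _
    · exact (monic_pr x).ne_zero
  rw [h3, Multiset.map_map]
  have h4 : (Multiset.map ((fun z => Polynomial.eval z h.derivative) ∘ x) Finset.univ.val).prod =
      ∏ i, Polynomial.eval (x i) h.derivative := rfl
  rw [h4]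
  congr 1
  refine Finset.prod_congr rfl fun i _ => ?_
  rw [hh, Polynomial.derivative_C_mul, Polynomial.eval_mul, Polynomial.eval_C]
  congr 1
  rw [← Finset.mul_prod_erase Finset.univ _ (Finset.mem_univ i), Polynomial.derivative_mul,
    Polynomial.eval_add, Polynomial.eval_mul, Polynomial.eval_mul, Polynomial.eval_sub,
    Polynomial.eval_X, Polynomial.eval_C, sub_self, zero_mul, add_zero,
    Polynomial.derivative_sub, Polynomial.derivative_X, Polynomial.derivative_C, sub_zero,
    Polynomial.eval_one, one_mul, Polynomial.eval_prod]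
  refine Finset.prod_congr ?_ fun j _ => by simp
  ext j
  simp

theorem uniqB {n : ℕ} (hn : 1 ≤ n) {F F' : Rc n} (hF : IsDiscB n F) (hF' : IsDiscB n F') :
    F = F' := by
  have h7 : X (Fin.last n) * F = X (Fin.last n) * F' := by
    refine MvPolynomial.funext fun y => ?_
    rw [map_mul, map_mul, eval_X]
    by_cases hy : y (Fin.last n) = 0
    · rw [hy, zero_mul, zero_mul]
    · obtain ⟨x, hx⟩ := surj_roots y hy
      congr 1
      rw [hx, ((t_Hom n hn).1 F hF).2, ((t_Hom n hn).1 F' hF').2]
  exact mul_left_cancel₀ (X_ne_zero _) h7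

theorem t_Ex : Pool.Agent.K3h34.BF.StmEx := by
  intro n hn
  have hpos : 0 < (Hg n).degree := by
    rw [← Polynomial.natDegree_pos_iff_degree_pos, Hg_natDegree]
    exact hn
  have hres := Polynomial.resultant_deriv hpos
  rw [Hg_natDegree] at hres
  have hlc : (Hg n).leadingCoeff = X (Fin.last n) := by
    rw [Polynomial.leadingCoeff, Hg_natDegree]
    exact Hg_coeff n (Fin.last n)
  rw [hlc] at hres
  set ε₁ : ℂ := (-1) ^ (n * (n - 1) / 2) with hε₁
  set ε₂ : ℂ := ∏ i : Fin n, ∏ j ∈ Finset.Ioi i, (-1 : ℂ) with hε₂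
  have he1 : ε₁ * ε₁ = 1 := by
    rw [hε₁, ← mul_pow]
    simp
  have he2 : ε₂ * ε₂ = 1 := by
    rw [hε₂, ← Finset.prod_mul_distrib]
    refine Finset.prod_eq_one fun i _ => ?_
    rw [← Finset.prod_mul_distrib]
    exact Finset.prod_eq_one fun j _ => by norm_num
  set G : Rc n := C (ε₁ * ε₂) * (Hg n).discr with hG
  -- the values of `G`
  have hval : ∀ (t : ℂ) (x : Fin n → ℂ), t ≠ 0 → eval (fun j : Fin (n + 1) =>
      (Polynomial.C t * ∏ i, (Polynomial.X - Polynomial.C (x i))).coeff j) G =
      t ^ (2 * n - 2) * ∏ i : Fin n, ∏ j ∈ Finset.Ioi i, (x j - x i) ^ 2 := by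
    intro t x ht
    have h1 := res_val ht x
    rw [hres, map_mul, map_mul, map_pow, map_neg, map_one, eval_X, Fin.val_last,
      Polynomial.coeff_C_mul, coeff_pr, mul_one, Finset.prod_mul_distrib,
      ← Finset.prod_prod_Ioi_mul_eq_prod_prod_off_diag (fun j i => x i - x j)] at h1
    have h5 : ∏ i : Fin n, ∏ j ∈ Finset.Ioi i, ((x i - x j) * (x j - x i)) =
        ε₂ * ∏ i : Fin n, ∏ j ∈ Finset.Ioi i, (x j - x i) ^ 2 := by
      rw [hε₂, ← Finset.prod_mul_distrib]
      refine Finset.prod_congr rfl fun i _ => ?_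
      rw [← Finset.prod_mul_distrib]
      exact Finset.prod_congr rfl fun j _ => by ring
    rw [h5, Finset.prod_const, Finset.card_univ, Fintype.card_fin, ← hε₁] at h1
    rw [hG, map_mul, eval_C]
    refine mul_left_cancel₀ ht ?_
    have h6 : t * t ^ (2 * n - 2) = t ^ (n - 1) * t ^ n := by
      rw [← pow_succ', ← pow_add]
      congr 1
      omega
    rw [← mul_assoc t (t ^ _), h6]
    linear_combination ε₂ * h1 + t ^ (n - 1) * t ^ n *
      (∏ i : Fin n, ∏ j ∈ Finset.Ioi i, (x j - x i) ^ 2) * he2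
  have hD : IsDiscB n (homogeneousComponent (2 * n - 2) G) := by
    refine ⟨homogeneousComponent_isHomogeneous _ _, ?_⟩
    intro x
    set y : Fin (n + 1) → ℂ := fun j : Fin (n + 1) =>
      (∏ i, (Polynomial.X - Polynomial.C (x i))).coeff j with hy
    set Q : ℂ := ∏ i : Fin n, ∏ j ∈ Finset.Ioi i, (x j - x i) ^ 2 with hQ
    set N : ℕ := G.totalDegree + 1 with hN
    have h1 : ∀ t : ℂ, t ≠ 0 →
        ∑ d ∈ Finset.range N, t ^ d * eval y (homogeneousComponent d G) =
          t ^ (2 * n - 2) * Q := by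
      intro t ht
      rw [hQ, ← hval t x ht]
      conv_rhs => rw [← sum_homogeneousComponent G]
      rw [map_sum]
      refine Finset.sum_congr rfl fun d _ => ?_
      rw [← eval_smul_hom (homogeneousComponent_isHomogeneous d G)]
      refine congrArg (fun u => eval u (homogeneousComponent d G)) (funext fun j => ?_)
      rw [Polynomial.coeff_C_mul]
    have h2 : (∑ d ∈ Finset.range N, Polynomial.C (eval y (homogeneousComponent d G)) *
        Polynomial.X ^ d : Polynomial ℂ) = Polynomial.C Q * Polynomial.X ^ (2 * n - 2) := by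
      refine Polynomial.eq_of_infinite_eval_eq _ _ ?_
      refine Set.Infinite.mono (s := {t : ℂ | t ≠ 0}) (fun t ht => ?_)
        (Set.Finite.infinite_compl (Set.finite_singleton (0 : ℂ)))
      have := h1 t ht
      simp only [Set.mem_ofPred_eq, Polynomial.eval_finsetSum, Polynomial.eval_mul,
        Polynomial.eval_C, Polynomial.eval_pow, Polynomial.eval_X]
      rw [mul_comm Q, ← this]
      exact Finset.sum_congr rfl fun d _ => mul_comm _ _
    have h3 := congrArg (fun p => Polynomial.coeff p (2 * n - 2)) h2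
    simp only [Polynomial.finsetSum_coeff, Polynomial.coeff_C_mul, Polynomial.coeff_X_pow,
      mul_ite, mul_one, mul_zero, if_true] at h3
    rw [Finset.sum_ite_eq] at h3
    split_ifs at h3 with h4
    · exact h3
    · rw [← h3, homogeneousComponent_eq_zero, map_zero]
      rw [Finset.mem_range] at h4
      omega
  exact ⟨_, hD, fun F' hF' => uniqB hn hF' hD⟩

end Pool.Agent.K3h85.BF
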