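import Pool.Agent.K3h34.BF.Stm

/-! # Easy facts on the discriminant of forms -/

set_option autoImplicit false
set_option linter.style.haveILetI false

namespace Pool.Agent.K3h85.BF

open MvPolynomial
open Pool.Agent.K3h15.DM (Rx hz)
open Pool.Agent.K3h15.BF (dh IsDiscB)
open Pool.Agent.K3h34.BF (Rc hv)

/-- the values of homogeneous polynomials on lines -/
theorem eval_smul_hom {σ : Type} {F : MvPolynomial σ ℂ} {d : ℕ} (hF : F.IsHomogeneous d)
    (t : ℂ) (y : σ → ℂ) : eval (fun j => t * y j) F = t ^ d * eval y F := by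
  rw [eval_eq, eval_eq, Finset.mul_sum]
  refine Finset.sum_congr rfl fun m hm => ?_
  have h1 : Finsupp.degree m = d := by
    by_contra h
    exact (mem_support_iff.mp hm) (hF.coeff_eq_zero h)
  have h2 : ∏ i ∈ m.support, (t * y i) ^ m i = t ^ d * ∏ i ∈ m.support, y i ^ m i := by
    rw [← h1, Finsupp.degree_apply, ← Finset.prod_pow_eq_pow_sum, ← Finset.prod_mul_distrib]
    exact Finset.prod_congr rfl fun i _ => mul_pow _ _ _
  rw [h2]
  ring

theorem t_Hom : Pool.Agent.K3h34.BF.StmHom := by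
  intro n hn
  refine ⟨fun F hF => ⟨?_, fun t x => ?_⟩, fun w => ⟨?_, ?_, ?_⟩⟩
  · rintro rfl
    have h := hF.2 (fun i => ((i : ℕ) : ℂ))
    rw [map_zero] at h
    refine Finset.prod_ne_zero_iff.mpr (fun i _ => Finset.prod_ne_zero_iff.mpr fun j hj => ?_)
      h.symm
    rw [Finset.mem_Ioi] at hj
    refine pow_ne_zero _ (sub_ne_zero.mpr ?_)
    have h1 : (j : ℕ) ≠ i := (Fin.lt_def.mp hj).ne'
    exact_mod_cast h1
  · rw [← hF.2 x, ← eval_smul_hom hF.1]
    refine congrArg (fun u => eval u F) (funext fun j => ?_)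
    rw [Polynomial.coeff_C_mul]
  · rw [hv]
    refine IsHomogeneous.sum _ _ _ fun j _ => ?_
    have := (isHomogeneous_C (Fin (n + 1)) (w ^ (j : ℕ))).mul (isHomogeneous_X ℂ j)
    simpa using this
  · intro h
    have h1 := congrArg (eval (fun j : Fin (n + 1) => if j = 0 then (1 : ℂ) else 0)) h
    rw [hv, map_sum, map_zero] at h1
    rw [Finset.sum_eq_single (0 : Fin (n + 1))] at h1
    · simp at h1
    · intro j _ hj
      simp [hj]
    · intro h2
      exact absurd (Finset.mem_univ _) h2
  · rw [hv, map_sum, Fin.sum_univ_castSucc, hz, add_comm]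
    congr 1
    · rw [map_mul, dh, aeval_X, dif_neg (by simp), mul_one, aeval_C]
      simp
    · refine Finset.sum_congr rfl fun j _ => ?_
      rw [map_mul, dh, aeval_X, dif_pos (by simp), aeval_C]
      simp

end Pool.Agent.K3h85.BF
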