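import Pool.Agent.K3h85.BF.Ex

/-! # The substitution `h(T) = (T - w₀) ^ n g(1 / (T - w₀))` -/

set_option autoImplicit false
set_option linter.style.haveILetI false

namespace Pool.Agent.K3h85.BF

open MvPolynomial
open Pool.Agent.K3h15.DM (Rx hz)
open Pool.Agent.K3h15.BF (dh IsDiscB)
open Pool.Agent.K3h34.BF (Rc hv StmHom StmMob)

/-- `(T - w₀) ^ n g(1 / (T - w₀))` -/
noncomputable def Ph (n : ℕ) (w₀ : ℂ) (g : Fin (n + 1) → ℂ) : Polynomial ℂ :=
  ∑ k : Fin (n + 1), Polynomial.C (g k) * (Polynomial.X - Polynomial.C w₀) ^ (n - (k : ℕ))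

/-- the matrix of the substitution -/
noncomputable def Mm (n : ℕ) (w₀ : ℂ) : Matrix (Fin (n + 1)) (Fin (n + 1)) ℂ :=
  Matrix.of fun j k => ((Polynomial.X - Polynomial.C w₀) ^ (n - (k : ℕ))).coeff (j : ℕ)

/-- the inverse matrix -/
noncomputable def Mi (n : ℕ) (w₀ : ℂ) : Matrix (Fin (n + 1)) (Fin (n + 1)) ℂ :=
  Matrix.of fun k j => ((Polynomial.X : Polynomial ℂ) ^ (n - (j : ℕ)) *
    (1 + Polynomial.C w₀ * Polynomial.X) ^ (j : ℕ)).coeff (k : ℕ)

theorem sub_ne_pow {n : ℕ} {t w₀ : ℂ} (ht : t ≠ w₀) {k : ℕ} (hk : k ≤ n) :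
    (t - w₀) ^ (n - k) = (t - w₀) ^ n * (1 / (t - w₀)) ^ k := by
  have h0 : t - w₀ ≠ 0 := sub_ne_zero.mpr ht
  rw [one_div, inv_pow, eq_mul_inv_iff_mul_eq₀ (pow_ne_zero _ h0), ← pow_add]
  congr 1
  omega

theorem Ph_eval {n : ℕ} {t w₀ : ℂ} (ht : t ≠ w₀) (g : Fin (n + 1) → ℂ) :
    (Ph n w₀ g).eval t = (t - w₀) ^ n * ∑ k : Fin (n + 1), g k * (1 / (t - w₀)) ^ (k : ℕ) := by
  rw [Ph, Polynomial.eval_finsetSum, Finset.mul_sum]
  refine Finset.sum_congr rfl fun k _ => ?_
  rw [Polynomial.eval_mul, Polynomial.eval_C, Polynomial.eval_pow, Polynomial.eval_sub,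
    Polynomial.eval_X, Polynomial.eval_C, sub_ne_pow ht (by have := k.2; omega)]
  ring

theorem coeff_sum_eval {n : ℕ} {p : Polynomial ℂ} (hp : p.natDegree < n + 1) (t : ℂ) :
    ∑ k : Fin (n + 1), p.coeff (k : ℕ) * t ^ (k : ℕ) = p.eval t := by
  rw [Polynomial.eval_eq_sum_range' hp, Finset.sum_range]

theorem mul_one' (n : ℕ) (w₀ : ℂ) : Mm n w₀ * Mi n w₀ = 1 := by
  ext j l
  rw [Matrix.mul_apply]
  have hl : (l : ℕ) ≤ n := by have := l.2; omega
  set p : Polynomial ℂ := (Polynomial.X : Polynomial ℂ) ^ (n - (l : ℕ)) *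
    (1 + Polynomial.C w₀ * Polynomial.X) ^ (l : ℕ) with hp
  have hpd : p.natDegree < n + 1 := by
    have h1 : (1 + Polynomial.C w₀ * Polynomial.X : Polynomial ℂ).natDegree ≤ 1 := by
      rw [add_comm, ← Polynomial.C_1]
      exact Polynomial.natDegree_linear_le
    have h2 := Polynomial.natDegree_mul_le (p := (Polynomial.X : Polynomial ℂ) ^ (n - (l : ℕ)))
      (q := (1 + Polynomial.C w₀ * Polynomial.X) ^ (l : ℕ))
    have h3 := Polynomial.natDegree_pow_le (p := (1 + Polynomial.C w₀ * Polynomial.X :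
      Polynomial ℂ)) (n := (l : ℕ))
    have h4 : (l : ℕ) * (1 + Polynomial.C w₀ * Polynomial.X : Polynomial ℂ).natDegree ≤ l := by
      nlinarith
    rw [Polynomial.natDegree_X_pow, ← hp] at h2
    omega
  have hkey : Ph n w₀ (fun k => p.coeff (k : ℕ)) = Polynomial.X ^ (l : ℕ) := by
    refine Polynomial.eq_of_infinite_eval_eq _ _ ?_
    refine Set.Infinite.mono (s := {t : ℂ | t ≠ w₀}) (fun t ht => ?_)
      (Set.Finite.infinite_compl (Set.finite_singleton w₀))
    have ht' : t ≠ w₀ := ht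
    have h0 : t - w₀ ≠ 0 := sub_ne_zero.mpr ht'
    change Polynomial.eval t _ = Polynomial.eval t _
    rw [Ph_eval ht', coeff_sum_eval hpd, hp]
    simp only [Polynomial.eval_mul, Polynomial.eval_pow, Polynomial.eval_X, Polynomial.eval_add,
      Polynomial.eval_one, Polynomial.eval_C]
    have h5 : 1 + w₀ * (1 / (t - w₀)) = t * (1 / (t - w₀)) := by
      field_simp
      ring
    have h6 : (1 / (t - w₀)) ^ (n - (l : ℕ)) * (1 / (t - w₀)) ^ (l : ℕ) =
        (1 / (t - w₀)) ^ n := by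
      rw [← pow_add, Nat.sub_add_cancel hl]
    have h7 : (t - w₀) ^ n * (1 / (t - w₀)) ^ n = 1 := by
      rw [← mul_pow, mul_one_div_cancel h0, one_pow]
    rw [h5, mul_pow]
    linear_combination (t - w₀) ^ n * t ^ (l : ℕ) * h6 + t ^ (l : ℕ) * h7
  have h7 := congrArg (fun q => Polynomial.coeff q (j : ℕ)) hkey
  simp only [Ph, Polynomial.finsetSum_coeff, Polynomial.coeff_C_mul, Polynomial.coeff_X_pow] at h7
  rw [Matrix.one_apply]
  have h8 : ((j : ℕ) = l) = (j = l) := by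
    rw [Fin.ext_iff]
  simp only [h8] at h7
  rw [← h7]
  refine Finset.sum_congr rfl fun k _ => ?_
  rw [Mm, Mi, Matrix.of_apply, Matrix.of_apply, mul_comm]

theorem eval_aeval_M {n : ℕ} (w₀ : ℂ) (F : Rc n) (g : Fin (n + 1) → ℂ) :
    eval g (aeval (fun j => ∑ k, C (Mm n w₀ j k) * X k : Fin (n + 1) → Rc n) F) =
      eval (fun j : Fin (n + 1) => (Ph n w₀ g).coeff (j : ℕ)) F := by
  have h0 : ((aeval g : Rc n →ₐ[ℂ] ℂ).comp
      (aeval (fun j => ∑ k, C (Mm n w₀ j k) * X k : Fin (n + 1) → Rc n))) =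
      aeval (fun j : Fin (n + 1) => (Ph n w₀ g).coeff (j : ℕ)) := by
    apply MvPolynomial.algHom_ext
    intro j
    rw [AlgHom.comp_apply, aeval_X, aeval_X, map_sum, Ph, Polynomial.finsetSum_coeff]
    refine Finset.sum_congr rfl fun k _ => ?_
    rw [map_mul, aeval_X, aeval_C, Polynomial.coeff_C_mul, Mm, Matrix.of_apply, mul_comm]
    rfl
  have h3 : ∀ (m : ℕ) (y : Fin m → ℂ) (p : MvPolynomial (Fin m) ℂ),
      (aeval y : MvPolynomial (Fin m) ℂ →ₐ[ℂ] ℂ) p = eval y p := fun m y p =>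
    congrArg (fun t : MvPolynomial (Fin m) ℂ →+* ℂ => t p) (MvPolynomial.coe_aeval_eq_eval y)
  have h4 := congrArg (fun t => t F) h0
  simpa only [AlgHom.comp_apply, h3] using h4

/-- the invariance at vectors with nonzero first and last entry -/
theorem inv_val (hHom : StmHom) {n : ℕ} (hn : 1 ≤ n) {F : Rc n} (hF : IsDiscB n F) (w₀ : ℂ)
    (g : Fin (n + 1) → ℂ) (h0 : g 0 ≠ 0) (hl : g (Fin.last n) ≠ 0) :
    eval (fun j : Fin (n + 1) => (Ph n w₀ g).coeff (j : ℕ)) F = eval g F := by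
  obtain ⟨x, hx⟩ := surj_roots g hl
  set t : ℂ := g (Fin.last n) with ht
  have hx0 : ∀ i, x i ≠ 0 := by
    intro i hi
    apply h0
    rw [hx]
    change (Polynomial.C t * ∏ i, (Polynomial.X - Polynomial.C (x i))).coeff 0 = 0
    rw [Polynomial.coeff_C_mul, Polynomial.coeff_zero_eq_eval_zero,
      Polynomial.eval_prod, Finset.prod_eq_zero (Finset.mem_univ i), mul_zero]
    simp [hi]
  have hd : (Polynomial.C t * ∏ i, (Polynomial.X - Polynomial.C (x i))).natDegree < n + 1 := by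
    rw [Polynomial.natDegree_C_mul hl, natDegree_pr]
    exact Nat.lt_succ_self n
  have hP : Ph n w₀ g = Polynomial.C (t * ∏ i, (-x i)) *
      ∏ i, (Polynomial.X - Polynomial.C (w₀ + 1 / x i)) := by
    refine Polynomial.eq_of_infinite_eval_eq _ _ ?_
    refine Set.Infinite.mono (s := {t : ℂ | t ≠ w₀}) (fun u hu => ?_)
      (Set.Finite.infinite_compl (Set.finite_singleton w₀))
    have hu' : u ≠ w₀ := hu
    have hu0 : u - w₀ ≠ 0 := sub_ne_zero.mpr hu'
    change Polynomial.eval u _ = Polynomial.eval u _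
    have h1 : ∑ k : Fin (n + 1), g k * (1 / (u - w₀)) ^ (k : ℕ) =
        (Polynomial.C t * ∏ i, (Polynomial.X - Polynomial.C (x i))).eval (1 / (u - w₀)) := by
      rw [← coeff_sum_eval hd]
      refine Finset.sum_congr rfl fun k _ => ?_
      rw [congrFun hx k]
    rw [Ph_eval hu', h1]
    simp only [Polynomial.eval_mul, Polynomial.eval_C, Polynomial.eval_prod, Polynomial.eval_sub,
      Polynomial.eval_X]
    have h2 : (u - w₀) ^ n = ∏ _i : Fin n, (u - w₀) := by
      rw [Finset.prod_const, Finset.card_univ, Fintype.card_fin]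
    rw [h2, mul_left_comm, mul_assoc, ← Finset.prod_mul_distrib, ← Finset.prod_mul_distrib]
    congr 1
    refine Finset.prod_congr rfl fun i _ => ?_
    have := hx0 i
    field_simp
    ring
  rw [hP, ((hHom n hn).1 F hF).2]
  conv_rhs => rw [hx, ((hHom n hn).1 F hF).2]
  have h3 : ∏ i : Fin n, ∏ j ∈ Finset.Ioi i, (x i * x j) = (∏ i, x i) ^ (n - 1) := by
    rw [Finset.prod_prod_Ioi_mul_eq_prod_prod_off_diag (fun _ i => x i), ← Finset.prod_pow]
    refine Finset.prod_congr rfl fun i _ => ?_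
    rw [Finset.prod_const, Finset.card_compl, Fintype.card_fin, Finset.card_singleton]
  have h4 : ∏ i : Fin n, ∏ j ∈ Finset.Ioi i, (x j - x i) ^ 2 =
      (∏ i : Fin n, ∏ j ∈ Finset.Ioi i, (x i * x j)) ^ 2 *
        ∏ i : Fin n, ∏ j ∈ Finset.Ioi i, (w₀ + 1 / x j - (w₀ + 1 / x i)) ^ 2 := by
    rw [← Finset.prod_pow, ← Finset.prod_mul_distrib]
    refine Finset.prod_congr rfl fun i _ => ?_
    rw [← Finset.prod_pow, ← Finset.prod_mul_distrib]
    refine Finset.prod_congr rfl fun j _ => ?_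
    have h5 := hx0 i
    have h6 := hx0 j
    field_simp
    ring
  rw [h4, h3, mul_pow, ← mul_assoc]
  congr 1
  congr 1
  have h7 : 2 * n - 2 = (n - 1) * 2 := by omega
  have h8 : ∏ i, (-x i) = (-1) ^ n * ∏ i, x i := by
    have h9 : ∀ i : Fin n, -x i = -1 * x i := fun i => by ring
    rw [Finset.prod_congr rfl fun i _ => h9 i, Finset.prod_mul_distrib, Finset.prod_const,
      Finset.card_univ, Fintype.card_fin]
  have h10 : ((-1 : ℂ) ^ n) ^ ((n - 1) * 2) = 1 := by
    rw [← pow_mul, mul_comm (n - 1) 2, mul_left_comm, pow_mul]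
    norm_num
  rw [h7, h8, mul_pow, ← pow_mul (∏ i, x i), h10, one_mul]

theorem Ph_natDegree (n : ℕ) (w₀ : ℂ) (g : Fin (n + 1) → ℂ) : (Ph n w₀ g).natDegree < n + 1 := by
  refine Nat.lt_succ_of_le ?_
  rw [Ph]
  refine Polynomial.natDegree_sum_le_of_forall_le _ _ fun k _ => ?_
  refine (Polynomial.natDegree_C_mul_le _ _).trans ?_
  refine (Polynomial.natDegree_pow_le).trans ?_
  rw [Polynomial.natDegree_X_sub_C, mul_one]
  exact Nat.sub_le _ _

theorem eval_hv {n : ℕ} {p : Polynomial ℂ} (hp : p.natDegree < n + 1) (w : ℂ) :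
    eval (fun j : Fin (n + 1) => p.coeff (j : ℕ)) (hv n w) = p.eval w := by
  rw [hv, map_sum, ← coeff_sum_eval hp]
  refine Finset.sum_congr rfl fun j _ => ?_
  rw [map_mul, eval_C, eval_X, mul_comm]

theorem t_Mob : StmHom → StmMob := by
  intro hHom n hn F hF w₀
  refine ⟨Mm n w₀, Mi n w₀, mul_one' n w₀, ?_, ?_, ?_⟩
  · have h1 : X 0 * X (Fin.last n) * aeval (fun j => ∑ k, C (Mm n w₀ j k) * X k :
        Fin (n + 1) → Rc n) F = X 0 * X (Fin.last n) * F := by
      refine MvPolynomial.funext fun g => ?_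
      rw [map_mul, map_mul, map_mul, map_mul, eval_X, eval_X, eval_aeval_M]
      by_cases h0 : g 0 = 0
      · rw [h0, zero_mul, zero_mul, zero_mul]
      by_cases hl : g (Fin.last n) = 0
      · rw [hl, mul_zero, zero_mul, zero_mul]
      rw [inv_val hHom hn hF w₀ g h0 hl]
    exact mul_left_cancel₀ (mul_ne_zero (X_ne_zero _) (X_ne_zero _)) h1
  · refine MvPolynomial.funext fun g => ?_
    rw [eval_aeval_M, eval_hv (Ph_natDegree n w₀ g), Ph, Polynomial.eval_finsetSum,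
      Finset.sum_eq_single (Fin.last n), eval_X]
    · simp
    · intro k _ hk
      have h1 : n - (k : ℕ) ≠ 0 := by
        have h2 := k.2
        have h3 : (k : ℕ) ≠ n := fun h => hk (Fin.ext (by rw [h, Fin.val_last]))
        omega
      simp [h1]
    · intro h
      exact absurd (Finset.mem_univ _) h
  · intro w hw
    refine MvPolynomial.funext fun g => ?_
    rw [eval_aeval_M, eval_hv (Ph_natDegree n w₀ g), Ph_eval hw, map_mul, eval_C, hv, map_sum]
    congr 1
    refine Finset.sum_congr rfl fun k _ => ?_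
    rw [map_mul, eval_C, eval_X, mul_comm]

end Pool.Agent.K3h85.BF
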